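import Pool.Agent.P.MP_f074b0_an.Main

/-! Vanishing of the Berezin transform of a Toeplitz operator with bounded symbol on the
polyanalytic Bergman space `A²_n` implies compactness. -/

open MeasureTheory Metric Filter Topology Pool.Agent.P.MP_f074b0_an
open scoped InnerProductSpace

noncomputable section

namespace Pool.Agent.Results.MP_f074b0_an.BerezinCompact

/-- The Hilbert space `L²(D, dA)`. -/
def LL : Type := Lp ℂ 2 dA

instance instGroup : NormedAddCommGroup LL := Lp.instNormedAddCommGroup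
instance instInner : InnerProductSpace ℂ LL := L2.innerProductSpace

/-- A function representing the class `F`. -/
def rep (F : LL) : ℂ → ℂ := AEEqFun.cast F.1

/-- Classes with a polyanalytic representative of order `n`. -/
def polySet (n : ℕ) : Set LL := {F | ∃ G, IsPolyanalytic n G ∧ rep F =ᵐ[dA] G}

theorem zero_mem_polySet (n : ℕ) : 0 ∈ polySet n := (polyBergman n).zero_mem'
theorem add_mem_polySet (n : ℕ) {F G : LL} (hF : F ∈ polySet n) (hG : G ∈ polySet n) :
    F + G ∈ polySet n := (polyBergman n).add_mem' hF hG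
theorem smul_mem_polySet (n : ℕ) (c : ℂ) {F : LL} (hF : F ∈ polySet n) : c • F ∈ polySet n :=
  (polyBergman n).smul_mem' c hF

/-- The polyanalytic Bergman space `A²_n` as a subspace of `L²`. -/
def bergman (n : ℕ) : Submodule ℂ LL where
  carrier := polySet n
  zero_mem' := zero_mem_polySet n
  add_mem' := add_mem_polySet n
  smul_mem' := smul_mem_polySet n

instance instProj (n : ℕ) : (bergman n).HasOrthogonalProjection :=
  @Submodule.HasOrthogonalProjection.ofCompleteSpace _ _ _ _ _ _ (completeSpace_polyBergman n)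

/-- The Hilbert space `A²_n`. -/
def AA (n : ℕ) : Type := bergman n

instance instGroupA (n : ℕ) : NormedAddCommGroup (AA n) := (bergman n).normedAddCommGroup
instance instInnerA (n : ℕ) : InnerProductSpace ℂ (AA n) := (bergman n).innerProductSpace

/-- A function representing `F ∈ A²_n`. -/
def repA {n : ℕ} (F : AA n) : ℂ → ℂ := rep F.1

/-- Orthogonal projection onto a subspace. -/
def proj {H : Type} [NormedAddCommGroup H] [InnerProductSpace ℂ H] (V : Submodule ℂ H)
    [V.HasOrthogonalProjection] (u : H) : V := V.orthogonalProjectionOnto u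

theorem memLp_mul {n : ℕ} {f : ℂ → ℂ} (hf : MemLp f ⊤ dA) (g : AA n) :
    MemLp (fun z => f z * repA g z) 2 dA := MemLp.mul (Lp.memLp (p := 2) g.1) hf

/-- The Toeplitz operator `T_f g = P_n (f g)`. -/
def toeplitz (n : ℕ) {f : ℂ → ℂ} (hf : MemLp f ⊤ dA) (g : AA n) : AA n :=
  proj (bergman n) (MemLp.toLp (fun z => f z * repA g z) (memLp_mul hf g))

/-- `K z` is the reproducing kernel of `A²_n` at every point `z` of the disc. -/
def IsKernel (n : ℕ) (K : ℂ → AA n) : Prop :=
  ∀ z ∈ ball (0 : ℂ) 1, ∀ (F : AA n) (G : ℂ → ℂ),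
    IsPolyanalytic n G → repA F =ᵐ[dA] G → @inner ℂ _ (instInnerA n).toInner (K z) F = G z

/-- The Berezin transform `⟨T K_z, K_z⟩ / ⟨K_z, K_z⟩`. -/
def berezin {A : Type} [NormedAddCommGroup A] [InnerProductSpace ℂ A] (K : ℂ → A) (T : A → A)
    (z : ℂ) : ℂ := ⟪K z, T (K z)⟫_ℂ / ⟪K z, K z⟫_ℂ

theorem result (n : ℕ) (hn : 1 ≤ n) :
    (∃ K, IsKernel n K) ∧ ∀ K, IsKernel n K → ∀ (f : ℂ → ℂ) (hf : MemLp f ⊤ dA),
      Tendsto (berezin K (toeplitz n hf)) (comap norm (𝓝[<] (1 : ℝ))) (𝓝 0) →
        IsCompactOperator (toeplitz n hf) := by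
  obtain ⟨m, rfl⟩ : ∃ m, n = m + 1 := ⟨n - 1, by omega⟩
  exact ⟨⟨KK m, fun z hz F G hG hF => ev_eq hG hF (mem_ball_zero_iff.1 hz)⟩, fun K hK f hf h =>
    main m K hK f hf _ (fun g => ⟨_, (memLp_mul hf g).coeFn_toLp, rfl⟩) h⟩

end Pool.Agent.Results.MP_f074b0_an.BerezinCompact
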